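import Mathlib

/-!
# Navigation in `SL_2(F_p)`: words, the subtractive Euclidean algorithm, loops
-/

set_option autoImplicit false

namespace Pool.Agent.NV

/-- A letter: `(inverse, lower)`; `(false, false)` is `u_1`, `(true, false)` is `u_{-1}`,
`(false, true)` is `v_1`, `(true, true)` is `v_{-1}`. -/
abbrev Lt := Bool × Bool

/-- The matrix of a letter over the ring `R`. -/
def mt (R : Type) [CommRing R] (l : Lt) : Matrix (Fin 2) (Fin 2) R :=
  if l.2 = true then !![1, 0; (if l.1 = true then -1 else 1), 1]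
  else !![1, (if l.1 = true then -1 else 1); 0, 1]

/-- The value of a word. -/
def vl (R : Type) [CommRing R] (w : List Lt) : Matrix (Fin 2) (Fin 2) R := (w.map (mt R)).prod

/-- The inverse word. -/
def vinv (w : List Lt) : List Lt := (w.map fun l => (!l.1, l.2)).reverse

/-- One step of the subtractive Euclidean algorithm; the letters are put in front of the list. -/
def estep (q : (ℕ × ℕ) × List Lt) : (ℕ × ℕ) × List Lt :=
  if q.1.2 < q.1.1 then ((q.1.1 - q.1.2, q.1.2), (false, false) :: q.2)
  else if q.1.1 < q.1.2 then ((q.1.1, q.1.2 - q.1.1), (false, true) :: q.2) else q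

/-- `L` steps. -/
def eu (L s t : ℕ) : (ℕ × ℕ) × List Lt := estep^[L] ((s, t), [])

/-- The algorithm arrives at `(1, 1)` within `L` steps. -/
def OK (L s t : ℕ) : Prop := (eu L s t).1 = (1, 1)

instance (L s t : ℕ) : Decidable (OK L s t) := by unfold OK; infer_instance

/-- The word with the first column `(s, t)`. -/
def cw (L s t : ℕ) : List Lt := (eu L s t).2.reverse ++ [(false, true)]

/-- The word `W'⁻¹ W`, where `W`, `W'` are the words with the first columns `v`, `v'`. -/
def lw (L : ℕ) (v v' : ℕ × ℕ) : List Lt := vinv (cw L v'.1 v'.2) ++ cw L v.1 v.2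

/-- `g u g⁻¹`, where `u = u_1` (`e = false`) or `u_{-1}` (`e = true`). -/
def cj (g : List Lt) (e : Bool) : List Lt := g ++ (e, false) :: vinv g

section Count

variable (p : ℕ) [NeZero p] (L : ℕ)

/-- The vectors for which the algorithm is successful. -/
def VS : Finset (ZMod p × ZMod p) := Finset.univ.filter fun v => OK L v.1.val v.2.val

/-- The number of vectors `v` such that the algorithm is successful for `v` and for `g v`. -/
def cnt (g : ZMod p) : ℕ :=
  (Finset.univ.filter fun v : ZMod p × ZMod p =>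
    OK L v.1.val v.2.val ∧ OK L (g * v.1).val (g * v.2).val).card

/-- The condition on a vector `v` for a loop with the multiplier `a / b`. -/
def LP (a b : ZMod p) (v : ZMod p × ZMod p) : Prop :=
  OK L (a * v.1).val (a * v.2).val ∧ OK L (b * v.1).val (b * v.2).val

instance (a b : ZMod p) (v : ZMod p × ZMod p) : Decidable (LP p L a b v) := by
  unfold LP; infer_instance

/-- The first numerator; `x = (a₀, b₀, a, c, m)`. -/
def n1 (y : ZMod p) (x : Fin 5 → ZMod p) : ZMod p := x 4 * x 4 + (y - x 0 * x 1 * (x 0 * x 1))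

/-- The second numerator. -/
def n2 (y : ZMod p) (x : Fin 5 → ZMod p) : ZMod p := (y - x 0 * x 1 * (x 0 * x 1)) - x 4 * x 4

/-- The numerators and denominators of the six loops. -/
def nd (y : ZMod p) (x : Fin 5 → ZMod p) : Fin 6 → ZMod p × ZMod p :=
  ![(x 0, 1), (x 1, 1), (x 2, 1), (n1 p y x, (x 4 + x 4) * x 2), (x 3, 1),
    (n2 p y x, (x 4 + x 4) * x 3)]

/-- The good choices `x = (a₀, b₀, a, c, m)` and `w` (six vectors). -/
def Good (y : ZMod p) (x : Fin 5 → ZMod p) (w : Fin 6 → ZMod p × ZMod p) : Prop :=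
  ∀ i, LP p L (nd p y x i).1 (nd p y x i).2 (w i)

instance (y : ZMod p) (x : Fin 5 → ZMod p) (w : Fin 6 → ZMod p × ZMod p) :
    Decidable (Good p L y x w) := by unfold Good; infer_instance

/-- The `i`-th loop. -/
def lwi (y : ZMod p) (x : Fin 5 → ZMod p) (w : Fin 6 → ZMod p × ZMod p) (i : Fin 6) : List Lt :=
  lw L (((nd p y x i).1 * (w i).1).val, ((nd p y x i).1 * (w i).2).val)
    (((nd p y x i).2 * (w i).1).val, ((nd p y x i).2 * (w i).2).val)

/-- The word which is found. -/
def outw (y : ZMod p) (x : Fin 5 → ZMod p) (w : Fin 6 → ZMod p × ZMod p) : List Lt :=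
  cj (lwi p L y x w 0 ++ lwi p L y x w 1) false ++
    (cj (lwi p L y x w 2 ++ lwi p L y x w 3) false ++ cj (lwi p L y x w 4 ++ lwi p L y x w 5) true)

/-- The pairs of good choices. -/
def GS (y : ZMod p) : Finset ((Fin 5 → ZMod p) × (Fin 6 → ZMod p × ZMod p)) :=
  Finset.univ.filter fun q => Good p L y q.1 q.2

end Count

end Pool.Agent.NV
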